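import Pool.Agent.Lib.MP_27cd7e_an.H55Sphere

set_option autoImplicit false

namespace Pool.Agent.Results.MP_27cd7e_an.AllPeriods

open Pool.Agent.Lib.MP_27cd7e_an.H55

/-- Let `f = P / Q` be a rational map of degree at least two of the Riemann sphere, `z₀` a point of
the sphere fixed by `g = f^[n]` with `n ≥ 1`, with multiplier `exp (2 π i α)`, `α` irrational, such
that `g` is not linearizable at `z₀`. Then every neighbourhood of `z₀` contains infinitely many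
cycles of `g`. -/
theorem result (P Q : Polynomial ℂ) (hPQ : IsCoprime P Q)
    (hdeg : 2 ≤ max P.natDegree Q.natDegree) (z₀ : OnePoint ℂ) (n : ℕ) (hn : 1 ≤ n)
    (hper : (ratMap P Q)^[n] z₀ = z₀) (α : ℝ) (hα : Irrational α)
    (hmul : deriv (inChart z₀ (ratMap P Q)^[n]) 0 =
      Complex.exp (2 * (Real.pi : ℂ) * Complex.I * (α : ℂ)))
    (hCremer : ¬ ∃ φ : ℂ → ℂ, AnalyticAt ℂ φ 0 ∧ φ 0 = 0 ∧ deriv φ 0 ≠ 0 ∧
      ∀ᶠ w in nhds (0 : ℂ), φ (inChart z₀ (ratMap P Q)^[n] w) =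
        Complex.exp (2 * (Real.pi : ℂ) * Complex.I * (α : ℂ)) * φ w)
    (U : Set (OnePoint ℂ)) (hU : U ∈ nhds z₀) :
    {c : Set (OnePoint ℂ) | c ⊆ U ∧ ∃ x : OnePoint ℂ, ∃ m : ℕ, 1 ≤ m ∧
      ((ratMap P Q)^[n])^[m] x = x ∧
      c = {y | ∃ k < m, ((ratMap P Q)^[n])^[k] x = y}}.Infinite :=
  small_cycles (hdeg.trans (Nat.le_self_pow (by omega) _)) ((isRat_ratMap hPQ hdeg).iterate n)
    hper hα hmul hCremer hU

end Pool.Agent.Results.MP_27cd7e_an.AllPeriods
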