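import Pool.Agent.Lib.MP_27cd7e_an.FtMain

set_option autoImplicit false

namespace Pool.Agent.Results.MP_27cd7e_an.FiniteType

open Pool.Agent.Lib.MP_27cd7e_an

/-- Let `f` be holomorphic on an open set `W` of the plane and a covering map over the complement
of a finite set `S`, with at least two sheets.  Let `z₀` be fixed by `g = f^[n]`, `n ≥ 1`, with
orbit in `W`, multiplier `exp (2 π i α)`, `α` irrational, and `g` not linearizable at `z₀`.  Then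
every neighbourhood of `z₀` contains infinitely many cycles of `g`. -/
theorem result (W : Set ℂ) (hW : IsOpen W) (f : ℂ → ℂ) (hf : DifferentiableOn ℂ f W)
    (S : Set ℂ) (hS : S.Finite) (hcov : IsCoveringMapOn (fun z : W => f z) Sᶜ)
    (hdeg : ∃ z₁ ∈ W, ∃ z₂ ∈ W, z₁ ≠ z₂ ∧ f z₁ = f z₂ ∧ f z₁ ∉ S)
    (z₀ : ℂ) (n : ℕ) (hn : 1 ≤ n) (horb : ∀ i < n, f^[i] z₀ ∈ W) (hper : f^[n] z₀ = z₀)
    (α : ℝ) (hα : Irrational α)
    (hmul : deriv (f^[n]) z₀ = Complex.exp (2 * (Real.pi : ℂ) * Complex.I * (α : ℂ)))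
    (hCremer : ¬ ∃ φ : ℂ → ℂ, AnalyticAt ℂ φ z₀ ∧ φ z₀ = 0 ∧ deriv φ z₀ ≠ 0 ∧
      ∀ᶠ w in nhds z₀, φ (f^[n] w) =
        Complex.exp (2 * (Real.pi : ℂ) * Complex.I * (α : ℂ)) * φ w)
    (U : Set ℂ) (hU : U ∈ nhds z₀) :
    {c : Set ℂ | c ⊆ U ∧ (∀ y ∈ c, ∀ i < n, f^[i] y ∈ W) ∧ ∃ x : ℂ, ∃ m : ℕ, 1 ≤ m ∧
      (f^[n])^[m] x = x ∧ c = {y | ∃ k < m, (f^[n])^[k] x = y}}.Infinite := by
  obtain ⟨n, rfl⟩ : ∃ k, n = k + 1 := ⟨n - 1, by omega⟩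
  obtain ⟨V, T, h1, h2⟩ := (FT.of_cov hW hf hS hcov hdeg).iterate n
  have h3 : z₀ ∈ V := (h2 z₀).2 fun i hi => horb i (by omega)
  refine (h1.small_cycles h3 hper hα hmul hCremer
    (Filter.inter_mem hU (h1.opn.mem_nhds h3))).mono ?_
  rintro c ⟨h4, h5⟩
  exact ⟨fun y hy => (h4 hy).1, fun y hy i hi => (h2 y).1 (h4 hy).2 i (by omega), h5⟩

end Pool.Agent.Results.MP_27cd7e_an.FiniteType
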